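import Pool.Agent.Helper31.BQ.Stmts2

/-!
# Sheet BQ, row CM: all the combinatorial data
-/

set_option autoImplicit false

namespace Pool.Agent.Helper59.BQ

open Pool.Agent.Helper31.BQ Filter Topology

/-- the signs for one `k` -/
theorem signs (h1 : ST_HO) (k : ℕ) (τ : Fin (2 ^ (k + 1)) → GG k → ℝ)
    (σ : Fin (2 ^ (k + 1)) → GG (k + 1) → ℝ) (hτ : ∀ i g, |τ i g| = 1)
    (hσ : ∀ i g, |σ i g| = 1) :
    ∃ s : Fin (2 ^ (k + 1)) → ℝ, (∀ j, s j * s j = 1) ∧ ∀ g h,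
      |∑ j, τ j g * (s j * σ j h)| ≤
        2 * Real.sqrt ((2 : ℝ) ^ (k + 1) * Real.log (2 * ((2 : ℝ) ^ (k + 2) * 2 ^ (k + 3)))) := by
  obtain ⟨ω, hω⟩ := h1 (Fin (2 ^ (k + 1))) Bool (GG k × GG (k + 1))
    (fun j o p => (if o then (1 : ℝ) else -1) * (τ j p.1 * σ j p.2))
    (by
      intro i o p
      rw [abs_mul, abs_mul, hτ, hσ]
      cases o <;> simp)
    (by
      intro i p
      simp)
  refine ⟨fun j => if ω j then (1 : ℝ) else -1, ?_, ?_⟩
  · intro j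
    cases hj : ω j <;> simp [hj]
  · intro g h
    have := hω (g, h)
    have hc : (Fintype.card (Fin (2 ^ (k + 1))) : ℝ) = (2 : ℝ) ^ (k + 1) := by
      simp
    have hd : (Fintype.card (GG k × GG (k + 1)) : ℝ) = (2 : ℝ) ^ (k + 2) * 2 ^ (k + 3) := by
      rw [Fintype.card_prod]
      simp [GG]
    rw [hc, hd] at this
    refine le_trans (le_of_eq ?_) this
    congr 1
    refine Finset.sum_congr rfl fun j _ => ?_
    simp only
    ring

theorem bound (k : ℕ) :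
    ((2 : ℝ) ^ (k + 1))⁻¹ * (2 * Real.sqrt ((2 : ℝ) ^ (k + 1) *
      Real.log (2 * ((2 : ℝ) ^ (k + 2) * 2 ^ (k + 3))))) ≤
      4 * ((k : ℝ) + 3) * (Real.sqrt 2)⁻¹ ^ k := by
  have h2 : (0 : ℝ) < Real.sqrt 2 := by positivity
  have hs2 : Real.sqrt 2 * Real.sqrt 2 = 2 := Real.mul_self_sqrt (by norm_num)
  have hs1 : (1 : ℝ) ≤ Real.sqrt 2 := by
    rw [Real.one_le_sqrt]
    norm_num
  have hlog : Real.log (2 * ((2 : ℝ) ^ (k + 2) * 2 ^ (k + 3))) ≤ 2 * ((k : ℝ) + 3) := by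
    have e : (2 : ℝ) * ((2 : ℝ) ^ (k + 2) * 2 ^ (k + 3)) = 2 ^ (2 * k + 6) := by ring
    rw [e, Real.log_pow]
    have hl : Real.log 2 ≤ 1 := by
      have := Real.log_two_lt_d9
      linarith
    have hl0 : 0 ≤ Real.log 2 := Real.log_nonneg (by norm_num)
    push_cast
    nlinarith [(Nat.cast_nonneg k : (0 : ℝ) ≤ (k : ℝ))]
  have hk : (0 : ℝ) ≤ (k : ℝ) := Nat.cast_nonneg k
  have hsq : Real.sqrt ((2 : ℝ) ^ (k + 1) *
      Real.log (2 * ((2 : ℝ) ^ (k + 2) * 2 ^ (k + 3)))) ≤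
      Real.sqrt 2 ^ (k + 1) * (2 * ((k : ℝ) + 3)) := by
    refine Real.sqrt_le_iff.mpr ⟨by positivity, ?_⟩
    have e1 : (Real.sqrt 2 ^ (k + 1) * (2 * ((k : ℝ) + 3))) ^ 2 =
        2 ^ (k + 1) * (2 * ((k : ℝ) + 3)) ^ 2 := by
      rw [mul_pow, ← pow_mul, mul_comm (k + 1) 2, pow_mul, sq, hs2]
    rw [e1]
    refine mul_le_mul_of_nonneg_left (hlog.trans ?_) (by positivity)
    nlinarith
  have e2 : (2 : ℝ) ^ (k + 1) = Real.sqrt 2 ^ (k + 1) * Real.sqrt 2 ^ (k + 1) := by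
    rw [← mul_pow, hs2]
  have hp : (0 : ℝ) < Real.sqrt 2 ^ (k + 1) := by positivity
  calc ((2 : ℝ) ^ (k + 1))⁻¹ * (2 * Real.sqrt ((2 : ℝ) ^ (k + 1) *
        Real.log (2 * ((2 : ℝ) ^ (k + 2) * 2 ^ (k + 3)))))
      ≤ ((2 : ℝ) ^ (k + 1))⁻¹ * (2 * (Real.sqrt 2 ^ (k + 1) * (2 * ((k : ℝ) + 3)))) := by
        gcongr
    _ = 4 * ((k : ℝ) + 3) * (Real.sqrt 2 ^ (k + 1))⁻¹ := by
        rw [e2]
        field_simp
        ring
    _ ≤ 4 * ((k : ℝ) + 3) * (Real.sqrt 2)⁻¹ ^ k := by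
        refine mul_le_mul_of_nonneg_left ?_ (by positivity)
        rw [inv_pow]
        refine inv_anti₀ (by positivity) ?_
        exact pow_le_pow_right₀ hs1 (Nat.le_succ k)

theorem summ (D : ℝ) : Summable fun k : ℕ =>
    ((k : ℝ) + 4) * (D * ((k : ℝ) + 3) * (Real.sqrt 2)⁻¹ ^ k) := by
  have h2 : (0 : ℝ) < Real.sqrt 2 := by positivity
  have hr : ‖(Real.sqrt 2)⁻¹‖ < 1 := by
    rw [norm_inv, Real.norm_of_nonneg h2.le]
    refine inv_lt_one_of_one_lt₀ ?_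
    rw [Real.lt_sqrt (by norm_num)]
    norm_num
  have a2 := (summable_pow_mul_geometric_of_norm_lt_one 2 hr).mul_left D
  have a1 := (summable_pow_mul_geometric_of_norm_lt_one 1 hr).mul_left (7 * D)
  have a0 := (summable_pow_mul_geometric_of_norm_lt_one 0 hr).mul_left (12 * D)
  refine ((a2.add a1).add a0).congr fun k => ?_
  ring

theorem st_CM (h1 : ST_HO) (h2 : ST_SG) : ST_CM := by
  obtain ⟨C, hC⟩ := h2
  choose σ0 τ hσ hτ oσ oτ oστ hd using hC
  choose s hs hsb using fun k => signs h1 k (τ k) (σ0 (k + 1)) (hτ k) (hσ (k + 1))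
  -- the signs for all `k`
  obtain ⟨t, ht, htb⟩ : ∃ t : ∀ k, Fin (2 ^ k) → ℝ, (∀ k j, t k j * t k j = 1) ∧
      ∀ k g h, |∑ j, τ k j g * (t (k + 1) j * σ0 (k + 1) j h)| ≤
        2 * Real.sqrt ((2 : ℝ) ^ (k + 1) *
          Real.log (2 * ((2 : ℝ) ^ (k + 2) * 2 ^ (k + 3)))) := by
    refine ⟨fun k => match k with
      | 0 => fun _ => 1
      | k + 1 => s k, ?_, ?_⟩
    · intro k j
      cases k with
      | zero => simp
      | succ k => exact hs k j
    · intro k g h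
      exact hsb k g h
  have hta : ∀ k j, |t k j| = 1 := by
    intro k j
    have := ht k j
    have h3 : |t k j| * |t k j| = 1 := by rw [← abs_mul, this, abs_one]
    have h4 := abs_nonneg (t k j)
    nlinarith
  refine ⟨fun k i g => t k i * σ0 k i g, τ,
    fun k => (|C| + 4) * ((k : ℝ) + 3) * (Real.sqrt 2)⁻¹ ^ k, ?_, hτ, ?_, oτ, ?_, ?_, ?_, ?_, ?_⟩
  · intro k i g
    rw [abs_mul, hta, hσ, one_mul]
  · intro k i i'
    have : ∑ g, t k i * σ0 k i g * (t k i' * σ0 k i' g) =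
        t k i * t k i' * ∑ g, σ0 k i g * σ0 k i' g := by
      rw [Finset.mul_sum]
      refine Finset.sum_congr rfl fun g _ => ?_
      ring
    rw [this, oσ]
    split_ifs with h
    · rw [← h, ht, one_mul]
    · rw [mul_zero]
  · intro k i j
    have : ∑ g, t k i * σ0 k i g * τ k j g = t k i * ∑ g, σ0 k i g * τ k j g := by
      rw [Finset.mul_sum]
      refine Finset.sum_congr rfl fun g _ => ?_
      ring
    rw [this, oστ, mul_zero]
  · intro k g h
    have : ∑ i, t k i * σ0 k i g * (t k i * σ0 k i h) = ∑ i, σ0 k i g * σ0 k i h := by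
      refine Finset.sum_congr rfl fun i _ => ?_
      have := ht k i
      calc t k i * σ0 k i g * (t k i * σ0 k i h) = t k i * t k i * (σ0 k i g * σ0 k i h) := by ring
        _ = _ := by rw [this, one_mul]
    rw [this]
    refine (hd k g h).trans ?_
    have hk : (0 : ℝ) ≤ (k : ℝ) := Nat.cast_nonneg k
    have hC := le_abs_self C
    have hC0 := abs_nonneg C
    refine mul_le_mul_of_nonneg_right ?_ (by positivity)
    nlinarith
  · intro k g h
    rw [abs_mul, abs_of_pos (by positivity : (0 : ℝ) < ((2 : ℝ) ^ (k + 1))⁻¹)]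
    refine (mul_le_mul_of_nonneg_left (htb k g h) (by positivity)).trans ?_
    refine (bound k).trans ?_
    have hk : (0 : ℝ) ≤ (k : ℝ) := Nat.cast_nonneg k
    have hC0 := abs_nonneg C
    refine mul_le_mul_of_nonneg_right ?_ (by positivity)
    nlinarith
  · intro k
    positivity
  · exact summ (|C| + 4)

end Pool.Agent.Helper59.BQ
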